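import Mathlib

namespace Pool.Agent.Results.MP_da7216_co.IKTUCounterexample

open Filter Topology

/-- A finite weighted hypergraph on the vertex set `V`: a finite set of nonempty hyperedges, each
carrying a positive weight. -/
structure WHypergraph (V : Type) where
  edges : Finset (Finset V)
  nonempty : ∀ e ∈ edges, e.Nonempty
  w : Finset V → ℝ
  w_pos : ∀ e ∈ edges, 0 < w e

namespace WHypergraph

variable {V : Type} [Fintype V] [DecidableEq V] (H : WHypergraph V)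

/-- Adjacency: distinct vertices lying in a common hyperedge. -/
def graph : SimpleGraph V where
  Adj u v := u ≠ v ∧ ∃ e ∈ H.edges, u ∈ e ∧ v ∈ e
  symm := ⟨fun u v h => ⟨h.1.symm, by
    obtain ⟨e, he, hu, hv⟩ := h.2
    exact ⟨e, he, hv, hu⟩⟩⟩
  loopless := ⟨fun u h => h.1 rfl⟩

/-- The path distance, as a real number. -/
noncomputable def d (u v : V) : ℝ := (H.graph.dist u v : ℝ)

/-- The degree `d_v`: the total weight of the hyperedges containing `v`. -/
noncomputable def deg (v : V) : ℝ := ∑ e ∈ H.edges.filter (fun e => v ∈ e), H.w e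

/-- The inner product `⟨f,g⟩ = ∑ f(v)g(v)/d_v`. -/
noncomputable def inner (f g : V → ℝ) : ℝ := ∑ v, f v * g v / H.deg v

/-- The indicator `δ_v`. -/
def δ (v : V) : V → ℝ := Pi.single v 1

/-- `B_e = conv {δ_x - δ_y : x, y ∈ e}`. -/
def base (e : Finset V) : Set (V → ℝ) :=
  convexHull ℝ {b | ∃ x ∈ e, ∃ y ∈ e, b = δ x - δ y}

/-- `b ∈ argmax_{b ∈ B_e} ⟨f,b⟩`. -/
def IsArgmax (f : V → ℝ) (e : Finset V) (b : V → ℝ) : Prop :=
  b ∈ base e ∧ ∀ b' ∈ base e, H.inner f b' ≤ H.inner f b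

/-- The hypergraph Laplacian (multivalued). -/
def lap (f : V → ℝ) : Set (V → ℝ) :=
  {η | ∃ b : Finset V → (V → ℝ), (∀ e ∈ H.edges, H.IsArgmax f e (b e)) ∧
    η = ∑ e ∈ H.edges, (H.w e * H.inner f (b e)) • b e}

/-- `η = L⁰ f`: an element of least norm of `L f`. -/
def IsLap0 (f η : V → ℝ) : Prop :=
  η ∈ H.lap f ∧ ∀ η' ∈ H.lap f, H.inner η η ≤ H.inner η' η'

/-- `g = J_l f`, i.e. `f ∈ (I + l L) g`. -/
def IsResolvent (l : ℝ) (f g : V → ℝ) : Prop := ∃ η ∈ H.lap g, f = g + l • η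

/-- Weighted 1-Lipschitz functions. -/
def Lip : Set (V → ℝ) := {f | ∀ x y, H.inner f (δ x - δ y) ≤ H.d x y}

/-- The `l`-Kantorovich difference `sup_{f ∈ Lip} ⟨J_l f, δ_x - δ_y⟩`. -/
noncomputable def K (l : ℝ) (x y : V) : ℝ :=
  sSup {r | ∃ f ∈ H.Lip, ∃ g, H.IsResolvent l f g ∧ r = H.inner g (δ x - δ y)}

/-- `(1/l)(1 - K_l(x,y)/d(x,y))`. -/
noncomputable def quot (x y : V) (l : ℝ) : ℝ := (1 / l) * (1 - H.K l x y / H.d x y)

/-- `κ` is the IKTU curvature of the pair `x, y`. -/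
def IsCurvature (x y : V) (κ : ℝ) : Prop := Tendsto (H.quot x y) (𝓝[>] 0) (𝓝 κ)

/-- `Lip_{x,y}`. -/
def LipXY (x y : V) : Set (V → ℝ) := {f | f ∈ H.Lip ∧ H.inner f (δ x - δ y) = H.d x y}

/-- `𝓒(x,y)`. -/
noncomputable def C (x y : V) : ℝ :=
  (1 / H.d x y) * sInf {r | ∃ f ∈ H.LipXY x y, ∃ η, H.IsLap0 f η ∧ r = H.inner η (δ x - δ y)}

/-! ### General lemmas -/

/-- The normalised function `F = f/d`. -/
noncomputable def nf (f : V → ℝ) (u : V) : ℝ := f u / H.deg u

lemma inner_eq (f b : V → ℝ) : H.inner f b = ∑ u, H.nf f u * b u := by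
  unfold inner nf
  apply Finset.sum_congr rfl
  intro u _
  ring

lemma inner_delta_sub (f : V → ℝ) (x y : V) :
    H.inner f (δ x - δ y) = H.nf f x - H.nf f y := by
  rw [inner_eq]
  simp only [Pi.sub_apply, mul_sub, Finset.sum_sub_distrib, δ, Pi.single_apply]
  simp

lemma delta_sub_mem {e : Finset V} {x y : V} (hx : x ∈ e) (hy : y ∈ e) :
    (δ x - δ y : V → ℝ) ∈ base e :=
  subset_convexHull ℝ _ ⟨x, hx, y, hy, rfl⟩

/-- linear inequalities valid on generators are valid on `B_e` -/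
lemma base_le (e : Finset V) (φ : (V → ℝ) →ₗ[ℝ] ℝ) (c : ℝ)
    (h : ∀ x ∈ e, ∀ y ∈ e, φ (δ x - δ y) ≤ c) : ∀ b ∈ base e, φ b ≤ c := by
  intro b hb
  have hsub : base e ⊆ {b | φ b ≤ c} := by
    apply convexHull_min
    · rintro b ⟨x, hx, y, hy, rfl⟩
      exact h x hx y hy
    · exact convex_halfSpace_le φ.isLinear c
  exact hsub hb

/-- `b ↦ ∑ a_u b_u` as a linear map -/
def lin (a : V → ℝ) : (V → ℝ) →ₗ[ℝ] ℝ where
  toFun b := ∑ u, a u * b u
  map_add' := by
    intro b c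
    simp only [Pi.add_apply, mul_add, Finset.sum_add_distrib]
  map_smul' := by
    intro r b
    simp only [Pi.smul_apply, smul_eq_mul, RingHom.id_apply, Finset.mul_sum]
    apply Finset.sum_congr rfl
    intro u _
    ring

lemma lin_delta (a : V → ℝ) (x y : V) : lin a (δ x - δ y) = a x - a y := by
  simp only [lin, LinearMap.coe_mk, AddHom.coe_mk, Pi.sub_apply, mul_sub,
    Finset.sum_sub_distrib, δ, Pi.single_apply]
  simp

lemma lin_le {e : Finset V} {b : V → ℝ} (hb : b ∈ base e) (a : V → ℝ) (c : ℝ)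
    (h : ∀ x ∈ e, ∀ y ∈ e, a x - a y ≤ c) : ∑ u, a u * b u ≤ c :=
  base_le e (lin a) c (fun x hx y hy => by rw [lin_delta]; exact h x hx y hy) b hb

lemma base_sum {e : Finset V} {b : V → ℝ} (hb : b ∈ base e) : ∑ u, b u = 0 := by
  have h1 := lin_le hb (fun _ => 1) 0 (by intro x _ y _; norm_num)
  have h2 := lin_le hb (fun _ => -1) 0 (by intro x _ y _; norm_num)
  simp only [one_mul, neg_mul, Finset.sum_neg_distrib] at h1 h2
  linarith

lemma sum_single_mul (a : ℝ) (b : V → ℝ) (u : V) :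
    ∑ v, (Pi.single u a : V → ℝ) v * b v = a * b u := by
  rw [Finset.sum_eq_single u]
  · simp
  · intro v _ hv
    simp [Pi.single_eq_of_ne hv]
  · intro h
    exact absurd (Finset.mem_univ u) h

lemma base_le_one {e : Finset V} {b : V → ℝ} (hb : b ∈ base e) (u : V) : b u ≤ 1 := by
  have h := lin_le hb (Pi.single u 1) 1 (by
    intro x _ y _
    simp only [Pi.single_apply]
    split_ifs <;> norm_num)
  rw [sum_single_mul] at h
  linarith

lemma base_ge_neg_one {e : Finset V} {b : V → ℝ} (hb : b ∈ base e) (u : V) : -1 ≤ b u := by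
  have h := lin_le hb (Pi.single u (-1)) 1 (by
    intro x _ y _
    simp only [Pi.single_apply]
    split_ifs <;> norm_num)
  rw [sum_single_mul] at h
  linarith

lemma base_off {e : Finset V} {b : V → ℝ} (hb : b ∈ base e) {u : V} (hu : u ∉ e) : b u = 0 := by
  have h1 := lin_le hb (Pi.single u 1) 0 (by
    intro x hx y hy
    have hxu : x ≠ u := fun h => hu (h ▸ hx)
    have hyu : y ≠ u := fun h => hu (h ▸ hy)
    rw [Pi.single_eq_of_ne hxu, Pi.single_eq_of_ne hyu]
    norm_num)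
  have h2 := lin_le hb (Pi.single u (-1)) 0 (by
    intro x hx y hy
    have hxu : x ≠ u := fun h => hu (h ▸ hx)
    have hyu : y ≠ u := fun h => hu (h ▸ hy)
    rw [Pi.single_eq_of_ne hxu, Pi.single_eq_of_ne hyu]
    norm_num)
  rw [sum_single_mul] at h1 h2
  linarith

variable {H}

/-- the value of the maximum -/
lemma argmax_val {f b : V → ℝ} {e : Finset V} (h : H.IsArgmax f e b) {t s : V} (ht : t ∈ e)
    (hs : s ∈ e) (hM : ∀ u ∈ e, H.nf f s ≤ H.nf f u ∧ H.nf f u ≤ H.nf f t) :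
    H.inner f b = H.nf f t - H.nf f s := by
  apply le_antisymm
  · rw [inner_eq]
    apply lin_le h.1
    intro x hx y hy
    have h1 := hM x hx
    have h2 := hM y hy
    linarith
  · rw [← inner_delta_sub]
    exact h.2 _ (delta_sub_mem ht hs)

lemma exists_ts (f : V → ℝ) {e : Finset V} (he : e.Nonempty) :
    ∃ t ∈ e, ∃ s ∈ e, ∀ u ∈ e, H.nf f s ≤ H.nf f u ∧ H.nf f u ≤ H.nf f t := by
  obtain ⟨t, ht, hmax⟩ := Finset.exists_max_image e (H.nf f) he
  obtain ⟨s, hs, hmin⟩ := Finset.exists_min_image e (H.nf f) he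
  exact ⟨t, ht, s, hs, fun u hu => ⟨hmin u hu, hmax u hu⟩⟩

lemma argmax_nonneg {f b : V → ℝ} {e : Finset V} (h : H.IsArgmax f e b) {u s' : V} (hu : u ∈ e)
    (hs' : s' ∈ e) (hlt : H.nf f s' < H.nf f u) : 0 ≤ b u := by
  obtain ⟨t, ht, s, hs, hM⟩ := exists_ts (H := H) f ⟨u, hu⟩
  have hval := argmax_val h ht hs hM
  have hsu : H.nf f s < H.nf f u := lt_of_le_of_lt (hM s' hs').1 hlt
  have key := lin_le h.1 (fun v => H.nf f v + (Pi.single u (-(H.nf f u - H.nf f s)) : V → ℝ) v)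
    (H.nf f t - H.nf f s) (by
      intro x hx y hy
      have h1 := hM x hx
      have h2 := hM y hy
      simp only [Pi.single_apply]
      split_ifs with hxu hyu hyu
      · rw [hxu, hyu]; linarith
      · rw [hxu]; linarith
      · rw [hyu]; linarith
      · linarith)
  simp only [add_mul, Finset.sum_add_distrib] at key
  rw [sum_single_mul, ← inner_eq, hval] at key
  nlinarith

lemma argmax_nonpos {f b : V → ℝ} {e : Finset V} (h : H.IsArgmax f e b) {u t' : V} (hu : u ∈ e)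
    (ht' : t' ∈ e) (hlt : H.nf f u < H.nf f t') : b u ≤ 0 := by
  obtain ⟨t, ht, s, hs, hM⟩ := exists_ts (H := H) f ⟨u, hu⟩
  have hval := argmax_val h ht hs hM
  have hut : H.nf f u < H.nf f t := lt_of_lt_of_le hlt (hM t' ht').2
  have key := lin_le h.1 (fun v => H.nf f v + (Pi.single u (H.nf f t - H.nf f u) : V → ℝ) v)
    (H.nf f t - H.nf f s) (by
      intro x hx y hy
      have h1 := hM x hx
      have h2 := hM y hy
      simp only [Pi.single_apply]
      split_ifs with hxu hyu hyu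
      · rw [hxu, hyu]; linarith
      · rw [hxu]; linarith
      · rw [hyu]; linarith
      · linarith)
  simp only [add_mul, Finset.sum_add_distrib] at key
  rw [sum_single_mul, ← inner_eq, hval] at key
  nlinarith

lemma argmax_inner_nonneg {f b : V → ℝ} {e : Finset V} (h : H.IsArgmax f e b)
    (he : e.Nonempty) : 0 ≤ H.inner f b := by
  obtain ⟨t, ht⟩ := he
  have := h.2 _ (delta_sub_mem ht ht)
  rw [inner_delta_sub] at this
  linarith

/-- sufficient criterion for being an argmax -/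
lemma isArgmax_of {f b : V → ℝ} {e : Finset V} (hb : b ∈ base e) (r : ℝ)
    (hr : H.inner f b = r) (h : ∀ x ∈ e, ∀ y ∈ e, H.nf f x - H.nf f y ≤ r) :
    H.IsArgmax f e b := by
  refine ⟨hb, fun b' hb' => ?_⟩
  rw [hr, inner_eq]
  exact lin_le hb' _ _ h

/-- Lipschitz along edges implies Lipschitz. -/
lemma lip_of_adj (hc : H.graph.Connected) {f : V → ℝ}
    (h : ∀ u v, H.graph.Adj u v → H.nf f u - H.nf f v ≤ 1) : f ∈ H.Lip := by
  intro x y
  rw [inner_delta_sub]
  obtain ⟨p, hp⟩ := hc.exists_walk_length_eq_dist x y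
  have key : ∀ (a b : V) (q : H.graph.Walk a b), H.nf f a - H.nf f b ≤ q.length := by
    intro a b q
    induction q with
    | nil => simp
    | cons hab q ih =>
      rw [SimpleGraph.Walk.length_cons]
      push_cast
      have := h _ _ hab
      linarith
  have := key x y p
  rw [hp] at this
  exact this

lemma lip_adj {f : V → ℝ} (hf : f ∈ H.Lip) {u v : V} (h : H.graph.Adj u v) :
    H.nf f u - H.nf f v ≤ 1 := by
  have := hf u v
  rw [inner_delta_sub] at this
  unfold d at this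
  rw [SimpleGraph.dist_eq_one_iff_adj.mpr h] at this
  simpa using this


lemma nf_mul_deg (hdeg : ∀ v, 0 < H.deg v) (f : V → ℝ) (u : V) : H.nf f u * H.deg u = f u := by
  unfold nf
  exact div_mul_cancel₀ _ (hdeg u).ne'

lemma nf_add_smul (g η : V → ℝ) (l : ℝ) (u : V) :
    H.nf (g + l • η) u = H.nf g u + l * H.nf η u := by
  unfold nf
  simp only [Pi.add_apply, Pi.smul_apply, smul_eq_mul]
  ring

lemma lap_sum {g η : V → ℝ} (h : η ∈ H.lap g) : ∑ u, η u = 0 := by
  obtain ⟨b, hb, rfl⟩ := h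
  simp only [Finset.sum_apply, Pi.smul_apply, smul_eq_mul]
  rw [Finset.sum_comm]
  apply Finset.sum_eq_zero
  intro e he
  rw [← Finset.mul_sum, base_sum (hb e he).1, mul_zero]

lemma lap_inner_nonneg {g η : V → ℝ} (h : η ∈ H.lap g) : 0 ≤ ∑ u, H.nf g u * η u := by
  obtain ⟨b, hb, rfl⟩ := h
  simp only [Finset.sum_apply, Pi.smul_apply, smul_eq_mul, Finset.mul_sum]
  rw [Finset.sum_comm]
  apply Finset.sum_nonneg
  intro e he
  have : ∑ u, H.nf g u * (H.w e * H.inner g (b e) * b e u)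
      = H.w e * H.inner g (b e) * H.inner g (b e) := by
    have h := inner_eq H g (b e)
    calc ∑ u, H.nf g u * (H.w e * H.inner g (b e) * b e u)
        = H.w e * H.inner g (b e) * ∑ u, H.nf g u * b e u := by
          rw [Finset.mul_sum]
          apply Finset.sum_congr rfl
          intro u _
          ring
      _ = H.w e * H.inner g (b e) * H.inner g (b e) := by rw [← h]
  rw [this, mul_assoc]
  exact mul_nonneg (H.w_pos e he).le (mul_self_nonneg _)

lemma bddAbove_K (hdeg : ∀ v, 0 < H.deg v) {l : ℝ} (hl : 0 < l) (x y : V) :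
    BddAbove {r | ∃ f ∈ H.Lip, ∃ g, H.IsResolvent l f g ∧ r = H.inner g (δ x - δ y)} := by
  set M : ℝ := ∑ u, H.deg u * (H.d u y) ^ 2 with hM
  refine ⟨(1 + M / H.deg x) + (1 + M / H.deg y), ?_⟩
  rintro r ⟨f, hf, g, ⟨η, hη, rfl⟩, rfl⟩
  rw [inner_delta_sub]
  set k : ℝ := H.nf (g + l • η) y with hk
  have hfu : ∀ u, H.deg u * (H.nf (g + l • η) u - k) ^ 2 ≤ H.deg u * (H.d u y) ^ 2 := by
    intro u
    apply mul_le_mul_of_nonneg_left _ (hdeg u).le
    have h1 := hf u y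
    have h2 := hf y u
    rw [inner_delta_sub] at h1 h2
    have h3 : H.d y u = H.d u y := by unfold d; rw [SimpleGraph.dist_comm]
    rw [h3] at h2
    have h4 : 0 ≤ H.d u y := by unfold d; positivity
    apply sq_le_sq'
    · linarith
    · linarith
  have hsum : ∑ u, H.deg u * (H.nf (g + l • η) u - k) ^ 2 ≤ M := Finset.sum_le_sum fun u _ => hfu u
  have hexp : ∑ u, H.deg u * (H.nf (g + l • η) u - k) ^ 2
      = ∑ u, H.deg u * (H.nf g u - k) ^ 2 + 2 * l * (∑ u, H.nf g u * η u - k * ∑ u, η u)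
        + l ^ 2 * ∑ u, H.deg u * (H.nf η u) ^ 2 := by
    simp only [Finset.mul_sum, ← Finset.sum_sub_distrib, ← Finset.sum_add_distrib]
    apply Finset.sum_congr rfl
    intro u _
    rw [nf_add_smul, ← nf_mul_deg hdeg η u]
    ring
  have h0 := lap_inner_nonneg hη
  have h1 := lap_sum hη
  have h2 : 0 ≤ l ^ 2 * ∑ u, H.deg u * (H.nf η u) ^ 2 := by
    apply mul_nonneg (by positivity)
    apply Finset.sum_nonneg
    intro u _
    exact mul_nonneg (hdeg u).le (sq_nonneg _)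
  have h3 : ∑ u, H.deg u * (H.nf g u - k) ^ 2 ≤ M := by
    rw [h1, mul_zero, sub_zero] at hexp
    have h4 : 0 ≤ 2 * l * ∑ u, H.nf g u * η u := by positivity
    linarith
  have h5 : ∀ u, |H.nf g u - k| ≤ 1 + M / H.deg u := by
    intro u
    have h6 : H.deg u * (H.nf g u - k) ^ 2 ≤ M :=
      le_trans (Finset.single_le_sum (f := fun u => H.deg u * (H.nf g u - k) ^ 2)
        (fun u _ => mul_nonneg (hdeg u).le (sq_nonneg _)) (Finset.mem_univ u)) h3
    have h7 : (H.nf g u - k) ^ 2 ≤ M / H.deg u := by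
      rw [le_div_iff₀ (hdeg u)]
      linarith
    have h8 := sq_abs (H.nf g u - k)
    nlinarith [sq_nonneg (|H.nf g u - k| - 1), abs_nonneg (H.nf g u - k)]
  have h9 := h5 x
  have h10 := h5 y
  rw [abs_le] at h9 h10
  linarith

end WHypergraph

open WHypergraph

/-! ### The example -/

/-- Vertices `x = 0, y = 1, v = 2, c = 3, z = 4, p = 5`; hyperedges `{x,v,c}` and `{x,y,c}` of
weight 4, `{c,z}` of weight 80 and `{x,p}` of weight 1. -/
noncomputable def Hc : WHypergraph (Fin 6) where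
  edges := {{0,2,3},{0,1,3},{3,4},{0,5}}
  nonempty := by decide
  w := fun e => if e = {3,4} then 80 else if e = {0,5} then 1 else 4
  w_pos := by
    intro e _
    split_ifs <;> norm_num

lemma w1 : Hc.w {0,2,3} = 4 := by
  have h1 : ¬ (({0,2,3} : Finset (Fin 6)) = {3,4}) := by decide
  have h2 : ¬ (({0,2,3} : Finset (Fin 6)) = {0,5}) := by decide
  simp only [Hc, if_neg h1, if_neg h2]

lemma w2 : Hc.w {0,1,3} = 4 := by
  have h1 : ¬ (({0,1,3} : Finset (Fin 6)) = {3,4}) := by decide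
  have h2 : ¬ (({0,1,3} : Finset (Fin 6)) = {0,5}) := by decide
  simp only [Hc, if_neg h1, if_neg h2]

lemma w3 : Hc.w {3,4} = 80 := by
  simp only [Hc, if_true]

lemma w4 : Hc.w {0,5} = 1 := by
  have h1 : ¬ (({0,5} : Finset (Fin 6)) = {3,4}) := by decide
  simp only [Hc, if_neg h1, if_true]

lemma edges_sum {A : Type} [AddCommMonoid A] (φ : Finset (Fin 6) → A) :
    ∑ e ∈ Hc.edges, φ e = φ {0,2,3} + (φ {0,1,3} + (φ {3,4} + φ {0,5})) := by
  have : Hc.edges = {{0,2,3},{0,1,3},{3,4},{0,5}} := rfl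
  rw [this, Finset.sum_insert (by decide), Finset.sum_insert (by decide),
    Finset.sum_insert (by decide), Finset.sum_singleton]

lemma deg_eq (v : Fin 6) : Hc.deg v = (![9, 4, 4, 88, 80, 1] : Fin 6 → ℝ) v := by
  unfold WHypergraph.deg
  rw [Finset.sum_filter, edges_sum, w1, w2, w3, w4]
  fin_cases v <;> simp <;> norm_num

lemma deg_pos (v : Fin 6) : 0 < Hc.deg v := by
  rw [deg_eq]
  fin_cases v <;> simp

lemma mem_edges_iff (e : Finset (Fin 6)) :
    e ∈ Hc.edges ↔ e = {0,2,3} ∨ e = {0,1,3} ∨ e = {3,4} ∨ e = {0,5} := by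
  have : Hc.edges = {{0,2,3},{0,1,3},{3,4},{0,5}} := rfl
  rw [this]
  simp only [Finset.mem_insert, Finset.mem_singleton]

lemma lap_iff (f η : Fin 6 → ℝ) : η ∈ Hc.lap f ↔ ∃ b1 b2 b3 b4,
    Hc.IsArgmax f {0,2,3} b1 ∧ Hc.IsArgmax f {0,1,3} b2 ∧ Hc.IsArgmax f {3,4} b3 ∧
    Hc.IsArgmax f {0,5} b4 ∧
    ∀ u, η u = 4 * Hc.inner f b1 * b1 u + (4 * Hc.inner f b2 * b2 u +
      (80 * Hc.inner f b3 * b3 u + Hc.inner f b4 * b4 u)) := by
  constructor
  · rintro ⟨b, hb, rfl⟩
    refine ⟨b {0,2,3}, b {0,1,3}, b {3,4}, b {0,5}, hb _ ?_, hb _ ?_, hb _ ?_, hb _ ?_, ?_⟩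
    · rw [mem_edges_iff]; simp
    · rw [mem_edges_iff]; simp
    · rw [mem_edges_iff]; simp
    · rw [mem_edges_iff]; simp
    · intro u
      rw [edges_sum, w1, w2, w3, w4]
      simp only [Pi.add_apply, Pi.smul_apply, smul_eq_mul, one_mul]
  · rintro ⟨b1, b2, b3, b4, h1, h2, h3, h4, hη⟩
    have n21 : ¬ (({0,1,3} : Finset (Fin 6)) = {0,2,3}) := by decide
    have n31 : ¬ (({3,4} : Finset (Fin 6)) = {0,2,3}) := by decide
    have n32 : ¬ (({3,4} : Finset (Fin 6)) = {0,1,3}) := by decide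
    have n41 : ¬ (({0,5} : Finset (Fin 6)) = {0,2,3}) := by decide
    have n42 : ¬ (({0,5} : Finset (Fin 6)) = {0,1,3}) := by decide
    have n43 : ¬ (({0,5} : Finset (Fin 6)) = {3,4}) := by decide
    refine ⟨fun e => if e = {0,2,3} then b1 else if e = {0,1,3} then b2 else
      if e = {3,4} then b3 else b4, ?_, ?_⟩
    · intro e he
      rw [mem_edges_iff] at he
      rcases he with rfl | rfl | rfl | rfl
      · simpa using h1
      · simpa only [if_neg n21, if_true] using h2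
      · simpa only [if_neg n31, if_neg n32, if_true] using h3
      · simpa only [if_neg n41, if_neg n42, if_neg n43] using h4
    · funext u
      rw [edges_sum, w1, w2, w3, w4, hη u]
      simp only [if_neg n21, if_neg n31, if_neg n32, if_neg n41, if_neg n42, if_neg n43, if_true,
        Pi.add_apply, Pi.smul_apply, smul_eq_mul, one_mul]

lemma adj_iff (u v : Fin 6) : Hc.graph.Adj u v ↔ u ≠ v ∧
    ((u ∈ ({0,2,3} : Finset (Fin 6)) ∧ v ∈ ({0,2,3} : Finset (Fin 6))) ∨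
     (u ∈ ({0,1,3} : Finset (Fin 6)) ∧ v ∈ ({0,1,3} : Finset (Fin 6))) ∨
     (u ∈ ({3,4} : Finset (Fin 6)) ∧ v ∈ ({3,4} : Finset (Fin 6))) ∨
     (u ∈ ({0,5} : Finset (Fin 6)) ∧ v ∈ ({0,5} : Finset (Fin 6)))) := by
  unfold WHypergraph.graph
  simp only [mem_edges_iff]
  constructor
  · rintro ⟨h, e, rfl | rfl | rfl | rfl, hu, hv⟩
    · exact ⟨h, Or.inl ⟨hu, hv⟩⟩
    · exact ⟨h, Or.inr (Or.inl ⟨hu, hv⟩)⟩
    · exact ⟨h, Or.inr (Or.inr (Or.inl ⟨hu, hv⟩))⟩
    · exact ⟨h, Or.inr (Or.inr (Or.inr ⟨hu, hv⟩))⟩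
  · rintro ⟨h, h' | h' | h' | h'⟩
    · exact ⟨h, _, Or.inl rfl, h'⟩
    · exact ⟨h, _, Or.inr (Or.inl rfl), h'⟩
    · exact ⟨h, _, Or.inr (Or.inr (Or.inl rfl)), h'⟩
    · exact ⟨h, _, Or.inr (Or.inr (Or.inr rfl)), h'⟩

lemma connected : Hc.graph.Connected := by
  have h : ∀ u : Fin 6, Hc.graph.Reachable 0 u := by
    have h02 : Hc.graph.Adj 0 2 := by rw [adj_iff]; decide
    have h01 : Hc.graph.Adj 0 1 := by rw [adj_iff]; decide
    have h03 : Hc.graph.Adj 0 3 := by rw [adj_iff]; decide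
    have h34 : Hc.graph.Adj 3 4 := by rw [adj_iff]; decide
    have h05 : Hc.graph.Adj 0 5 := by rw [adj_iff]; decide
    intro u
    fin_cases u
    · exact SimpleGraph.Reachable.refl _
    · exact h01.reachable
    · exact h02.reachable
    · exact h03.reachable
    · exact h03.reachable.trans h34.reachable
    · exact h05.reachable
  haveI : Nonempty (Fin 6) := ⟨0⟩
  exact ⟨fun u v => (h u).symm.trans (h v)⟩

lemma d01 : Hc.d 0 1 = 1 := by
  have h01 : Hc.graph.Adj 0 1 := by rw [adj_iff]; decide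
  unfold WHypergraph.d
  rw [SimpleGraph.dist_eq_one_iff_adj.mpr h01]
  norm_num

lemma lip_pair {f : Fin 6 → ℝ} (hL : f ∈ Hc.Lip) (u v : Fin 6)
    (h : (u ≠ v ∧
    ((u ∈ ({0,2,3} : Finset (Fin 6)) ∧ v ∈ ({0,2,3} : Finset (Fin 6))) ∨
     (u ∈ ({0,1,3} : Finset (Fin 6)) ∧ v ∈ ({0,1,3} : Finset (Fin 6))) ∨
     (u ∈ ({3,4} : Finset (Fin 6)) ∧ v ∈ ({3,4} : Finset (Fin 6))) ∨
     (u ∈ ({0,5} : Finset (Fin 6)) ∧ v ∈ ({0,5} : Finset (Fin 6)))))) :
    Hc.nf f u - Hc.nf f v ≤ 1 := lip_adj hL ((adj_iff u v).2 h)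

/-- bounds for the top coefficient of an argmax, for a Lipschitz function -/
lemma argmax_inner_le {f b : Fin 6 → ℝ} (hL : f ∈ Hc.Lip) {e : Finset (Fin 6)}
    (he : e ∈ Hc.edges) (h : Hc.IsArgmax f e b) : Hc.inner f b ≤ 1 := by
  rw [inner_eq]
  apply lin_le h.1
  intro u hu v hv
  by_cases huv : u = v
  · subst huv; simp
  · exact lip_adj hL ⟨huv, e, he, hu, hv⟩

lemma rho_bound {f b4 : Fin 6 → ℝ} (hL : f ∈ Hc.Lip) (h4 : Hc.IsArgmax f {0,5} b4) :
    -1 ≤ Hc.inner f b4 * b4 0 ∧ Hc.inner f b4 * b4 0 ≤ 1 := by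
  have h0 : 0 ≤ Hc.inner f b4 := argmax_inner_nonneg h4 (by decide)
  have h1 : Hc.inner f b4 ≤ 1 := argmax_inner_le hL (by rw [mem_edges_iff]; simp) h4
  have h2 := base_ge_neg_one h4.1 0
  have h3 := base_le_one h4.1 0
  constructor <;> nlinarith only [h0, h1, h2, h3]

lemma alg_sq (r r' ρ : ℝ) (hr' : r' = (5 - ρ) / 13)
    (h : (4 * r + 4 + ρ) * (4 * r + 4 + ρ) / 9 + (4 * (1 - r)) * (4 * (1 - r)) / 4 ≤
      (4 * r' + 4 + ρ) * (4 * r' + 4 + ρ) / 9 + (4 * (1 - r')) * (4 * (1 - r')) / 4) :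
    r = r' := by
  have hρ' : ρ = 5 - 13 * r' := by rw [hr']; ring
  rw [hρ'] at h
  have hsq : (r - r') ^ 2 ≤ 0 := by nlinarith only [h]
  have h0 : (r - r') ^ 2 = 0 := le_antisymm hsq (sq_nonneg _)
  have := pow_eq_zero_iff (two_ne_zero) |>.1 h0
  linarith only [this]

/-- the tie case -/
lemma tieCase {f η b1 b2 b3 b4 : Fin 6 → ℝ} (hL : f ∈ Hc.Lip)
    (h20 : Hc.nf f 2 = Hc.nf f 0) (h03 : Hc.nf f 0 - Hc.nf f 3 = 1)
    (h1 : Hc.IsArgmax f {0,2,3} b1) (h2 : Hc.IsArgmax f {0,1,3} b2)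
    (h3 : Hc.IsArgmax f {3,4} b3) (h4 : Hc.IsArgmax f {0,5} b4)
    (hform : ∀ u, η u = 4 * Hc.inner f b1 * b1 u + (4 * Hc.inner f b2 * b2 u +
      (80 * Hc.inner f b3 * b3 u + Hc.inner f b4 * b4 u)))
    (hmin : ∀ η' ∈ Hc.lap f, Hc.inner η η ≤ Hc.inner η' η')
    (I2 : Hc.inner f b2 = 1) (b20 : b2 0 = 1) : 7 / 13 ≤ η 0 / 9 := by
  obtain ⟨p4, p4'⟩ := rho_bound hL h4
  have I1 : Hc.inner f b1 = 1 := by
    rw [← h03]
    apply argmax_val h1 (by decide) (by decide)
    intro u hu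
    simp only [Finset.mem_insert, Finset.mem_singleton] at hu
    rcases hu with rfl | rfl | rfl
    · constructor <;> linarith only [h03]
    · constructor <;> linarith only [h03, h20]
    · constructor <;> linarith only [h03]
  have s1 := base_sum h1.1
  have i1 := inner_eq Hc f b1
  rw [Fin.sum_univ_six] at s1 i1
  have o11 : b1 1 = 0 := base_off h1.1 (by decide)
  have o14 : b1 4 = 0 := base_off h1.1 (by decide)
  have o15 : b1 5 = 0 := base_off h1.1 (by decide)
  have o22 : b2 2 = 0 := base_off h2.1 (by decide)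
  have o30 : b3 0 = 0 := base_off h3.1 (by decide)
  have o32 : b3 2 = 0 := base_off h3.1 (by decide)
  have o42 : b4 2 = 0 := base_off h4.1 (by decide)
  rw [o11, o14, o15] at i1 s1
  set ρ : ℝ := Hc.inner f b4 * b4 0 with hρ
  set r' : ℝ := (5 - ρ) / 13 with hr'
  have hr0 : 0 ≤ r' := by rw [hr']; linarith only [p4']
  have hr1 : 0 ≤ 1 - r' := by rw [hr']; linarith only [p4]
  set b1' : Fin 6 → ℝ := r' • (δ 0 - δ 3) + (1 - r') • (δ 2 - δ 3) with hb1'
  have hb1mem : b1' ∈ base ({0,2,3} : Finset (Fin 6)) := by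
    apply (convex_convexHull ℝ _)
    · exact delta_sub_mem (by decide) (by decide)
    · exact delta_sub_mem (by decide) (by decide)
    · exact hr0
    · exact hr1
    · ring
  have v0 : b1' 0 = r' := by rw [hb1']; simp [δ, Pi.single_apply]
  have v1 : b1' 1 = 0 := by rw [hb1']; simp [δ, Pi.single_apply]
  have v2 : b1' 2 = 1 - r' := by rw [hb1']; simp [δ, Pi.single_apply]
  have v3 : b1' 3 = -1 := by rw [hb1']; simp [δ, Pi.single_apply]; ring
  have v4 : b1' 4 = 0 := by rw [hb1']; simp [δ, Pi.single_apply]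
  have v5 : b1' 5 = 0 := by rw [hb1']; simp [δ, Pi.single_apply]
  have hinner : Hc.inner f b1' = 1 := by
    rw [inner_eq, Fin.sum_univ_six, v0, v1, v2, v3, v4, v5, h20]
    linarith only [h03]
  have hb1arg : Hc.IsArgmax f {0,2,3} b1' := by
    apply isArgmax_of hb1mem 1 hinner
    intro u hu v hv
    by_cases huv : u = v
    · subst huv; simp
    · exact lip_pair hL u v ⟨huv, Or.inl ⟨hu, hv⟩⟩
  clear_value b1' r'
  have c3 : b1 3 = -1 := by
    rw [I1, h20] at i1
    have h5 : b1 0 + b1 2 = - b1 3 := by linarith only [s1]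
    have h6 : Hc.nf f 0 * b1 0 + Hc.nf f 0 * b1 2 = Hc.nf f 0 * (- b1 3) := by
      rw [← h5]; ring
    have h7 : Hc.nf f 3 = Hc.nf f 0 - 1 := by linarith only [h03]
    rw [h7] at i1
    linarith only [i1, h6]
  have c2 : b1 2 = 1 - b1 0 := by linarith only [s1, c3]
  obtain ⟨η', hη'⟩ : ∃ η' : Fin 6 → ℝ, ∀ u, η' u = 4 * Hc.inner f b1' * b1' u +
      (4 * Hc.inner f b2 * b2 u + (80 * Hc.inner f b3 * b3 u + Hc.inner f b4 * b4 u)) :=
    ⟨_, fun u => rfl⟩
  have hmem' : η' ∈ Hc.lap f := (lap_iff f η').2 ⟨b1', b2, b3, b4, hb1arg, h2, h3, h4, hη'⟩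
  have hle := hmin η' hmem'
  have g1 : η' 1 = η 1 := by rw [hform 1, hη' 1, v1, o11]; ring
  have g3 : η' 3 = η 3 := by rw [hform 3, hη' 3, v3, c3, hinner, I1]
  have g4 : η' 4 = η 4 := by rw [hform 4, hη' 4, v4, o14]; ring
  have g5 : η' 5 = η 5 := by rw [hform 5, hη' 5, v5, o15]; ring
  have g0 : η' 0 = 4 * r' + 4 + ρ := by
    rw [hη' 0, v0, hinner, I2, b20, o30, ← hρ]; ring
  have g2 : η' 2 = 4 * (1 - r') := by
    rw [hη' 2, v2, hinner, I2, o22, o32, o42]; ring
  have f0 : η 0 = 4 * b1 0 + 4 + ρ := by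
    rw [hform 0, I1, I2, b20, o30, ← hρ]; ring
  have f2 : η 2 = 4 * (1 - b1 0) := by
    rw [hform 2, I1, I2, o22, o32, o42, c2]; ring
  have hle2 : (4 * b1 0 + 4 + ρ) * (4 * b1 0 + 4 + ρ) / 9 +
      (4 * (1 - b1 0)) * (4 * (1 - b1 0)) / 4 ≤
      (4 * r' + 4 + ρ) * (4 * r' + 4 + ρ) / 9 + (4 * (1 - r')) * (4 * (1 - r')) / 4 := by
    have d0 : Hc.deg 0 = 9 := deg_eq 0
    have d2 : Hc.deg 2 = 4 := deg_eq 2
    unfold WHypergraph.inner at hle
    rw [Fin.sum_univ_six, Fin.sum_univ_six, g0, g1, g2, g3, g4, g5, f0, f2, d0, d2] at hle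
    linarith only [hle]
  have hbr := alg_sq (b1 0) r' ρ hr' hle2
  rw [f0, hbr, hr']
  linarith only [p4]

/-- key estimate: every least-norm element has difference at least `4/9`. -/
lemma lower (f : Fin 6 → ℝ) (hf : f ∈ Hc.LipXY 0 1) (η : Fin 6 → ℝ) (hη : Hc.IsLap0 f η) :
    4 / 9 ≤ Hc.inner η (δ 0 - δ 1) := by
  obtain ⟨hL, hxy⟩ := hf
  rw [inner_delta_sub, d01] at hxy
  obtain ⟨hmem, hmin⟩ := hη
  obtain ⟨b1, b2, b3, b4, h1, h2, h3, h4, hform⟩ := (lap_iff f η).1 hmem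
  have a03 : Hc.nf f 0 - Hc.nf f 3 ≤ 1 := lip_pair hL 0 3 (by decide)
  have a30 : Hc.nf f 3 - Hc.nf f 0 ≤ 1 := lip_pair hL 3 0 (by decide)
  have a31 : Hc.nf f 3 - Hc.nf f 1 ≤ 1 := lip_pair hL 3 1 (by decide)
  have a02 : Hc.nf f 0 - Hc.nf f 2 ≤ 1 := lip_pair hL 0 2 (by decide)
  have a20 : Hc.nf f 2 - Hc.nf f 0 ≤ 1 := lip_pair hL 2 0 (by decide)
  have a32 : Hc.nf f 3 - Hc.nf f 2 ≤ 1 := lip_pair hL 3 2 (by decide)
  have a23 : Hc.nf f 2 - Hc.nf f 3 ≤ 1 := lip_pair hL 2 3 (by decide)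
  have I1n : 0 ≤ Hc.inner f b1 := argmax_inner_nonneg h1 (by decide)
  have I1le : Hc.inner f b1 ≤ 1 := argmax_inner_le hL (by rw [mem_edges_iff]; simp) h1
  obtain ⟨p4, p4'⟩ := rho_bound hL h4
  have s2 := base_sum h2.1
  have i2 := inner_eq Hc f b2
  rw [Fin.sum_univ_six] at s2 i2
  have o11 : b1 1 = 0 := base_off h1.1 (by decide)
  have o22 : b2 2 = 0 := base_off h2.1 (by decide)
  have o24 : b2 4 = 0 := base_off h2.1 (by decide)
  have o25 : b2 5 = 0 := base_off h2.1 (by decide)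
  have o30 : b3 0 = 0 := base_off h3.1 (by decide)
  have o31 : b3 1 = 0 := base_off h3.1 (by decide)
  have o41 : b4 1 = 0 := base_off h4.1 (by decide)
  have l10 := base_ge_neg_one h1.1 0
  have e0 := hform 0
  have e1 := hform 1
  have n0 : Hc.nf η 0 = η 0 / 9 := by
    have d0 : Hc.deg 0 = 9 := deg_eq 0
    unfold WHypergraph.nf; rw [d0]
  have n1 : Hc.nf η 1 = η 1 / 4 := by
    have d1 : Hc.deg 1 = 4 := deg_eq 1
    unfold WHypergraph.nf; rw [d1]
  rw [inner_delta_sub, n0, n1]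
  have I2 : Hc.inner f b2 = Hc.nf f 0 - Hc.nf f 1 := argmax_val h2 (by decide) (by decide) (by
    intro u hu
    simp only [Finset.mem_insert, Finset.mem_singleton] at hu
    rcases hu with rfl | rfl | rfl
    · constructor <;> linarith only [hxy]
    · constructor <;> linarith only [hxy]
    · constructor <;> linarith only [hxy, a03, a31])
  rw [hxy] at I2
  rw [I2, o11, o31, o41] at e1
  rw [I2, o30] at e0
  rw [I2, o22, o24, o25] at i2
  rw [o22, o24, o25] at s2
  have b20 : 0 ≤ b2 0 := argmax_nonneg h2 (u := 0) (s' := 1) (by decide) (by decide)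
    (by linarith only [hxy])
  have b21 : b2 1 ≤ 0 := argmax_nonpos h2 (u := 1) (t' := 0) (by decide) (by decide)
    (by linarith only [hxy])
  rcases lt_trichotomy (Hc.nf f 3) (Hc.nf f 0) with h30 | h30 | h30
  · rcases lt_trichotomy (Hc.nf f 3) (Hc.nf f 1) with h31 | h31 | h31
    · exfalso; linarith only [h31, a03, hxy]
    · -- F 3 = F 1
      have b20' : b2 0 = 1 := by
        rw [h31] at i2
        have h6 : Hc.nf f 0 = Hc.nf f 1 + 1 := by linarith only [hxy]
        rw [h6] at i2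
        have h5 : b2 3 = - b2 0 - b2 1 := by linarith only [s2]
        rw [h5] at i2
        linarith only [i2]
      have h03 : Hc.nf f 0 - Hc.nf f 3 = 1 := by rw [h31]; exact hxy
      rcases lt_or_eq_of_le (show Hc.nf f 2 ≤ Hc.nf f 0 by linarith only [a23, h03]) with
        h20 | h20
      · -- F 2 < F 0
        have b12 : b1 2 ≤ 0 := argmax_nonpos h1 (u := 2) (t' := 0) (by decide) (by decide) h20
        have b13 : b1 3 ≤ 0 := argmax_nonpos h1 (u := 3) (t' := 0) (by decide) (by decide) h30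
        have I1 : Hc.inner f b1 = Hc.nf f 0 - Hc.nf f 3 :=
          argmax_val h1 (by decide) (by decide) (by
          intro u hu
          simp only [Finset.mem_insert, Finset.mem_singleton] at hu
          rcases hu with rfl | rfl | rfl
          · constructor <;> linarith only [h03]
          · constructor <;> linarith only [h03, a02, h20]
          · constructor <;> linarith only [h03])
        have I1' : Hc.inner f b1 = 1 := by rw [I1, h03]
        have s1 := base_sum h1.1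
        have i1 := inner_eq Hc f b1
        rw [Fin.sum_univ_six] at s1 i1
        have o14 : b1 4 = 0 := base_off h1.1 (by decide)
        have o15 : b1 5 = 0 := base_off h1.1 (by decide)
        rw [o11, o14, o15] at i1 s1
        rw [I1'] at i1 e0
        have hb : 1 ≤ b1 0 := by
          have h5 : b1 0 = - b1 2 - b1 3 := by linarith only [s1]
          have h6 : 1 = (Hc.nf f 0 - Hc.nf f 2) * (- b1 2) +
              (Hc.nf f 0 - Hc.nf f 3) * (- b1 3) := by
            rw [h5] at i1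
            linarith only [i1]
          have h7 : (Hc.nf f 0 - Hc.nf f 2) * (- b1 2) ≤ 1 * (- b1 2) :=
            mul_le_mul_of_nonneg_right a02 (by linarith only [b12])
          have h8 : (Hc.nf f 0 - Hc.nf f 3) * (- b1 3) ≤ 1 * (- b1 3) :=
            mul_le_mul_of_nonneg_right a03 (by linarith only [b13])
          linarith only [h5, h6, h7, h8]
        rw [b20'] at e0
        rw [e0, e1]
        linarith only [hb, p4, b21]
      · have := tieCase hL h20 h03 h1 h2 h3 h4 hform hmin I2 b20'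
        rw [e1]
        linarith only [this, b21]
    · -- F 1 < F 3 < F 0
      have b23 : b2 3 ≤ 0 := argmax_nonpos h2 (u := 3) (t' := 0) (by decide) (by decide) h30
      have b23' : 0 ≤ b2 3 := argmax_nonneg h2 (u := 3) (s' := 1) (by decide) (by decide) h31
      have b230 : b2 3 = 0 := le_antisymm b23 b23'
      have b10 : 0 ≤ b1 0 := argmax_nonneg h1 (u := 0) (s' := 3) (by decide) (by decide) h30
      rw [b230] at i2 s2
      have b201 : b2 0 = - b2 1 := by linarith only [s2]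
      have b211 : b2 1 = -1 := by
        rw [b201] at i2
        have h6 : Hc.nf f 0 = Hc.nf f 1 + 1 := by linarith only [hxy]
        rw [h6] at i2
        linarith only [i2]
      have b202 : b2 0 = 1 := by linarith only [b201, b211]
      rw [b202] at e0
      rw [b211] at e1
      have : 0 ≤ Hc.inner f b1 * b1 0 := mul_nonneg I1n b10
      rw [e0, e1]
      linarith only [this, p4]
  · -- F 3 = F 0
    have b211 : b2 1 = -1 := by
      rw [h30] at i2
      have h5 : b2 0 + b2 3 = - b2 1 := by linarith only [s2]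
      have h6 : Hc.nf f 0 * b2 0 + Hc.nf f 0 * b2 3 = Hc.nf f 0 * (- b2 1) := by
        rw [← h5]; ring
      have h7 : Hc.nf f 1 = Hc.nf f 0 - 1 := by linarith only [hxy]
      rw [h7] at i2
      linarith only [i2, h6]
    rw [b211] at e1
    have : -1 ≤ Hc.inner f b1 * b1 0 := by nlinarith only [I1n, I1le, l10]
    rw [e0, e1]
    linarith only [this, p4, b20]
  · exfalso; linarith only [h30, a31, hxy]

/-- the function with prescribed normalisation -/
noncomputable def mk (F : Fin 6 → ℝ) : Fin 6 → ℝ := fun u => F u * Hc.deg u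

lemma nf_mk (F : Fin 6 → ℝ) (u : Fin 6) : Hc.nf (mk F) u = F u := by
  unfold WHypergraph.nf mk
  exact mul_div_cancel_right₀ _ (deg_pos u).ne'

lemma lip_of_pairs {f : Fin 6 → ℝ}
    (h02 : |Hc.nf f 0 - Hc.nf f 2| ≤ 1) (h03 : |Hc.nf f 0 - Hc.nf f 3| ≤ 1)
    (h23 : |Hc.nf f 2 - Hc.nf f 3| ≤ 1) (h01 : |Hc.nf f 0 - Hc.nf f 1| ≤ 1)
    (h13 : |Hc.nf f 1 - Hc.nf f 3| ≤ 1) (h34 : |Hc.nf f 3 - Hc.nf f 4| ≤ 1)
    (h05 : |Hc.nf f 0 - Hc.nf f 5| ≤ 1) : f ∈ Hc.Lip := by
  rw [abs_le] at *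
  apply lip_of_adj connected
  intro u v huv
  rw [adj_iff] at huv
  obtain ⟨huv, h⟩ := huv
  simp only [Finset.mem_insert, Finset.mem_singleton] at h
  rcases h with ⟨hu, hv⟩ | ⟨hu, hv⟩ | ⟨hu, hv⟩ | ⟨hu, hv⟩
  · rcases hu with rfl | rfl | rfl <;> rcases hv with rfl | rfl | rfl <;>
      first | exact absurd rfl huv | linarith only [h02, h03, h23]
  · rcases hu with rfl | rfl | rfl <;> rcases hv with rfl | rfl | rfl <;>
      first | exact absurd rfl huv | linarith only [h01, h03, h13]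
  · rcases hu with rfl | rfl <;> rcases hv with rfl | rfl <;>
      first | exact absurd rfl huv | linarith only [h34]
  · rcases hu with rfl | rfl <;> rcases hv with rfl | rfl <;>
      first | exact absurd rfl huv | linarith only [h05]

lemma K_ge {l : ℝ} (hl : 0 < l) (hl1 : l ≤ 1 / 100) : 1 - 2 / 5 * l ≤ Hc.K l 0 1 := by
  obtain ⟨g, hg⟩ : ∃ g : Fin 6 → ℝ, g = mk ![1 - 2 / 5 * l, 0, 1 - 7 / 20 * l, - (1 / 10) * l,
    -1 + 2 * l, 2 - 6 / 5 * l] := ⟨_, rfl⟩
  have g0 : Hc.nf g 0 = 1 - 2 / 5 * l := by rw [hg, nf_mk]; rfl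
  have g1 : Hc.nf g 1 = 0 := by rw [hg, nf_mk]; rfl
  have g2 : Hc.nf g 2 = 1 - 7 / 20 * l := by rw [hg, nf_mk]; rfl
  have g3 : Hc.nf g 3 = - (1 / 10) * l := by rw [hg, nf_mk]; rfl
  have g4 : Hc.nf g 4 = -1 + 2 * l := by rw [hg, nf_mk]; rfl
  have g5 : Hc.nf g 5 = 2 - 6 / 5 * l := by rw [hg, nf_mk]; rfl
  have i1 : Hc.inner g (δ 2 - δ 3) = 1 - 1 / 4 * l := by
    rw [inner_delta_sub, g2, g3]; ring
  have i2 : Hc.inner g (δ 0 - δ 3) = 1 - 3 / 10 * l := by
    rw [inner_delta_sub, g0, g3]; ring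
  have i3 : Hc.inner g (δ 3 - δ 4) = 1 - 21 / 10 * l := by
    rw [inner_delta_sub, g3, g4]; ring
  have i4 : Hc.inner g (δ 5 - δ 0) = 1 - 4 / 5 * l := by
    rw [inner_delta_sub, g5, g0]; ring
  have a1 : Hc.IsArgmax g {0,2,3} (δ 2 - δ 3) := by
    apply isArgmax_of (delta_sub_mem (by decide) (by decide)) _ i1
    intro u hu v hv
    simp only [Finset.mem_insert, Finset.mem_singleton] at hu hv
    rcases hu with rfl | rfl | rfl <;> rcases hv with rfl | rfl | rfl <;>
      simp only [g0, g2, g3] <;> linarith only [hl, hl1]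
  have a2 : Hc.IsArgmax g {0,1,3} (δ 0 - δ 3) := by
    apply isArgmax_of (delta_sub_mem (by decide) (by decide)) _ i2
    intro u hu v hv
    simp only [Finset.mem_insert, Finset.mem_singleton] at hu hv
    rcases hu with rfl | rfl | rfl <;> rcases hv with rfl | rfl | rfl <;>
      simp only [g0, g1, g3] <;> linarith only [hl, hl1]
  have a3 : Hc.IsArgmax g {3,4} (δ 3 - δ 4) := by
    apply isArgmax_of (delta_sub_mem (by decide) (by decide)) _ i3
    intro u hu v hv
    simp only [Finset.mem_insert, Finset.mem_singleton] at hu hv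
    rcases hu with rfl | rfl <;> rcases hv with rfl | rfl <;>
      simp only [g3, g4] <;> linarith only [hl, hl1]
  have a4 : Hc.IsArgmax g {0,5} (δ 5 - δ 0) := by
    apply isArgmax_of (delta_sub_mem (by decide) (by decide)) _ i4
    intro u hu v hv
    simp only [Finset.mem_insert, Finset.mem_singleton] at hu hv
    rcases hu with rfl | rfl <;> rcases hv with rfl | rfl <;>
      simp only [g0, g5] <;> linarith only [hl, hl1]
  obtain ⟨η, hη⟩ : ∃ η : Fin 6 → ℝ, ∀ u, η u =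
      4 * Hc.inner g (δ 2 - δ 3) * (δ 2 - δ 3 : Fin 6 → ℝ) u +
      (4 * Hc.inner g (δ 0 - δ 3) * (δ 0 - δ 3 : Fin 6 → ℝ) u +
      (80 * Hc.inner g (δ 3 - δ 4) * (δ 3 - δ 4 : Fin 6 → ℝ) u +
        Hc.inner g (δ 5 - δ 0) * (δ 5 - δ 0 : Fin 6 → ℝ) u)) := ⟨_, fun u => rfl⟩
  have hmem : η ∈ Hc.lap g := (lap_iff g η).2 ⟨_, _, _, _, a1, a2, a3, a4, hη⟩
  rw [i1, i2, i3, i4] at hη
  have e0 : η 0 = 4 * (1 - 3 / 10 * l) - (1 - 4 / 5 * l) := by
    rw [hη 0]; simp [δ, Pi.single_apply]; ring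
  have e1 : η 1 = 0 := by
    rw [hη 1]; simp [δ, Pi.single_apply]
  have e2 : η 2 = 4 * (1 - 1 / 4 * l) := by
    rw [hη 2]; simp [δ, Pi.single_apply]
  have e3 : η 3 = - 4 * (1 - 1 / 4 * l) - 4 * (1 - 3 / 10 * l) + 80 * (1 - 21 / 10 * l) := by
    rw [hη 3]; simp [δ, Pi.single_apply]; ring
  have e4 : η 4 = - 80 * (1 - 21 / 10 * l) := by
    rw [hη 4]; simp [δ, Pi.single_apply]
  have e5 : η 5 = 1 - 4 / 5 * l := by
    rw [hη 5]; simp [δ, Pi.single_apply]
  have n0 : Hc.nf η 0 = η 0 / 9 := by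
    have d0 : Hc.deg 0 = 9 := deg_eq 0
    unfold WHypergraph.nf; rw [d0]
  have n1 : Hc.nf η 1 = η 1 / 4 := by
    have d1 : Hc.deg 1 = 4 := deg_eq 1
    unfold WHypergraph.nf; rw [d1]
  have n2 : Hc.nf η 2 = η 2 / 4 := by
    have d1 : Hc.deg 2 = 4 := deg_eq 2
    unfold WHypergraph.nf; rw [d1]
  have n3 : Hc.nf η 3 = η 3 / 88 := by
    have d1 : Hc.deg 3 = 88 := deg_eq 3
    unfold WHypergraph.nf; rw [d1]
  have n4 : Hc.nf η 4 = η 4 / 80 := by
    have d1 : Hc.deg 4 = 80 := deg_eq 4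
    unfold WHypergraph.nf; rw [d1]
  have n5 : Hc.nf η 5 = η 5 := by
    have d1 : Hc.deg 5 = 1 := deg_eq 5
    unfold WHypergraph.nf; rw [d1, div_one]
  have F0 : Hc.nf (g + l • η) 0 = 1 - 1 / 15 * l - 2 / 45 * l ^ 2 := by
    rw [nf_add_smul, g0, n0, e0]; ring
  have F1 : Hc.nf (g + l • η) 1 = 0 := by
    rw [nf_add_smul, g1, n1, e1]; ring
  have F2 : Hc.nf (g + l • η) 2 = 1 + 13 / 20 * l - 1 / 4 * l ^ 2 := by
    rw [nf_add_smul, g2, n2, e2]; ring
  have F3 : Hc.nf (g + l • η) 3 = (9 / 11 - 1 / 10) * l - 829 / 440 * l ^ 2 := by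
    rw [nf_add_smul, g3, n3, e3]; ring
  have F4 : Hc.nf (g + l • η) 4 = -1 + l + 21 / 10 * l ^ 2 := by
    rw [nf_add_smul, g4, n4, e4]; ring
  have F5 : Hc.nf (g + l • η) 5 = 2 - 1 / 5 * l - 4 / 5 * l ^ 2 := by
    rw [nf_add_smul, g5, n5, e5]; ring
  have hl2 : l ^ 2 ≤ 1 / 100 * l := by nlinarith only [hl, hl1]
  have hl3 : 0 < l ^ 2 := by positivity
  have hLip : g + l • η ∈ Hc.Lip := by
    apply lip_of_pairs
    · rw [F0, F2, abs_le]; constructor <;> linarith only [hl, hl1, hl2, hl3]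
    · rw [F0, F3, abs_le]; constructor <;> linarith only [hl, hl1, hl2, hl3]
    · rw [F2, F3, abs_le]; constructor <;> linarith only [hl, hl1, hl2, hl3]
    · rw [F0, F1, abs_le]; constructor <;> linarith only [hl, hl1, hl2, hl3]
    · rw [F1, F3, abs_le]; constructor <;> linarith only [hl, hl1, hl2, hl3]
    · rw [F3, F4, abs_le]; constructor <;> linarith only [hl, hl1, hl2, hl3]
    · rw [F0, F5, abs_le]; constructor <;> linarith only [hl, hl1, hl2, hl3]
  have hval : Hc.inner g (δ 0 - δ 1) = 1 - 2 / 5 * l := by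
    rw [inner_delta_sub, g0, g1]; ring
  rw [← hval]
  exact le_csSup (bddAbove_K deg_pos hl 0 1) ⟨g + l • η, hLip, g, ⟨η, hmem, rfl⟩, rfl⟩

lemma quot_le {l : ℝ} (hl : 0 < l) (hl1 : l ≤ 1 / 100) : Hc.quot 0 1 l ≤ 2 / 5 := by
  have h := K_ge hl hl1
  unfold WHypergraph.quot
  rw [d01, div_one, one_div, ← div_eq_inv_mul, div_le_iff₀ hl]
  linarith only [h]

/-- The infimum defining `𝓒(0,1)` is over a nonempty set. -/
lemma exists_lap0 : ∃ f ∈ Hc.LipXY 0 1, ∃ η, Hc.IsLap0 f η := by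
  obtain ⟨g, hg⟩ : ∃ g : Fin 6 → ℝ, g = mk ![1, 0, 1 / 4, 1 / 2, 1 / 2, 1] := ⟨_, rfl⟩
  have g0 : Hc.nf g 0 = 1 := by rw [hg, nf_mk]; rfl
  have g1 : Hc.nf g 1 = 0 := by rw [hg, nf_mk]; rfl
  have g2 : Hc.nf g 2 = 1 / 4 := by rw [hg, nf_mk]; rfl
  have g3 : Hc.nf g 3 = 1 / 2 := by rw [hg, nf_mk]; rfl
  have g4 : Hc.nf g 4 = 1 / 2 := by rw [hg, nf_mk]; rfl
  have g5 : Hc.nf g 5 = 1 := by rw [hg, nf_mk]; rfl
  have hL : g ∈ Hc.Lip := by
    apply lip_of_pairs <;> simp only [g0, g1, g2, g3, g4, g5] <;> rw [abs_le] <;> norm_num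
  refine ⟨g, ⟨hL, by rw [inner_delta_sub, g0, g1, d01]; norm_num⟩, ?_⟩
  have i1 : Hc.inner g (δ 0 - δ 2) = 3 / 4 := by
    rw [inner_delta_sub, g0, g2]; norm_num
  have i2 : Hc.inner g (δ 0 - δ 1) = 1 := by
    rw [inner_delta_sub, g0, g1]; norm_num
  have i3 : Hc.inner g (δ 3 - δ 4) = 0 := by
    rw [inner_delta_sub, g3, g4]; norm_num
  have i4 : Hc.inner g (δ 5 - δ 0) = 0 := by
    rw [inner_delta_sub, g5, g0]; norm_num
  have a1 : Hc.IsArgmax g {0,2,3} (δ 0 - δ 2) := by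
    apply isArgmax_of (delta_sub_mem (by decide) (by decide)) _ i1
    intro u hu v hv
    simp only [Finset.mem_insert, Finset.mem_singleton] at hu hv
    rcases hu with rfl | rfl | rfl <;> rcases hv with rfl | rfl | rfl <;>
      simp only [g0, g2, g3] <;> norm_num
  have a2 : Hc.IsArgmax g {0,1,3} (δ 0 - δ 1) := by
    apply isArgmax_of (delta_sub_mem (by decide) (by decide)) _ i2
    intro u hu v hv
    simp only [Finset.mem_insert, Finset.mem_singleton] at hu hv
    rcases hu with rfl | rfl | rfl <;> rcases hv with rfl | rfl | rfl <;>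
      simp only [g0, g1, g3] <;> norm_num
  have a3 : Hc.IsArgmax g {3,4} (δ 3 - δ 4) := by
    apply isArgmax_of (delta_sub_mem (by decide) (by decide)) _ i3
    intro u hu v hv
    simp only [Finset.mem_insert, Finset.mem_singleton] at hu hv
    rcases hu with rfl | rfl <;> rcases hv with rfl | rfl <;>
      simp only [g3, g4] <;> norm_num
  have a4 : Hc.IsArgmax g {0,5} (δ 5 - δ 0) := by
    apply isArgmax_of (delta_sub_mem (by decide) (by decide)) _ i4
    intro u hu v hv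
    simp only [Finset.mem_insert, Finset.mem_singleton] at hu hv
    rcases hu with rfl | rfl <;> rcases hv with rfl | rfl <;>
      simp only [g0, g5] <;> norm_num
  obtain ⟨η, hη⟩ : ∃ η : Fin 6 → ℝ, ∀ u, η u =
      4 * Hc.inner g (δ 0 - δ 2) * (δ 0 - δ 2 : Fin 6 → ℝ) u +
      (4 * Hc.inner g (δ 0 - δ 1) * (δ 0 - δ 1 : Fin 6 → ℝ) u +
      (80 * Hc.inner g (δ 3 - δ 4) * (δ 3 - δ 4 : Fin 6 → ℝ) u +
        Hc.inner g (δ 5 - δ 0) * (δ 5 - δ 0 : Fin 6 → ℝ) u)) := ⟨_, fun u => rfl⟩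
  have hmem : η ∈ Hc.lap g := (lap_iff g η).2 ⟨_, _, _, _, a1, a2, a3, a4, hη⟩
  rw [i1, i2, i3, i4] at hη
  refine ⟨η, hmem, ?_⟩
  intro η' hη'
  obtain ⟨b1, b2, b3, b4, h1, h2, h3, h4, hform⟩ := (lap_iff g η').1 hη'
  have I1 : Hc.inner g b1 = 3 / 4 := by
    rw [argmax_val h1 (t := 0) (s := 2) (by decide) (by decide) (by
      intro u hu
      simp only [Finset.mem_insert, Finset.mem_singleton] at hu
      rcases hu with rfl | rfl | rfl <;> simp only [g0, g2, g3] <;> norm_num), g0, g2]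
    norm_num
  have I2 : Hc.inner g b2 = 1 := by
    rw [argmax_val h2 (t := 0) (s := 1) (by decide) (by decide) (by
      intro u hu
      simp only [Finset.mem_insert, Finset.mem_singleton] at hu
      rcases hu with rfl | rfl | rfl <;> simp only [g0, g1, g3] <;> norm_num), g0, g1]
    norm_num
  have I3 : Hc.inner g b3 = 0 := by
    rw [argmax_val h3 (t := 3) (s := 4) (by decide) (by decide) (by
      intro u hu
      simp only [Finset.mem_insert, Finset.mem_singleton] at hu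
      rcases hu with rfl | rfl <;> simp only [g3, g4] <;> norm_num), g3, g4]
    norm_num
  have I4 : Hc.inner g b4 = 0 := by
    rw [argmax_val h4 (t := 5) (s := 0) (by decide) (by decide) (by
      intro u hu
      simp only [Finset.mem_insert, Finset.mem_singleton] at hu
      rcases hu with rfl | rfl <;> simp only [g0, g5] <;> norm_num), g0, g5]
    norm_num
  have s1 := base_sum h1.1
  have s2 := base_sum h2.1
  have j1 := inner_eq Hc g b1
  have j2 := inner_eq Hc g b2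
  rw [Fin.sum_univ_six] at s1 s2 j1 j2
  have o11 : b1 1 = 0 := base_off h1.1 (by decide)
  have o14 : b1 4 = 0 := base_off h1.1 (by decide)
  have o15 : b1 5 = 0 := base_off h1.1 (by decide)
  have o22 : b2 2 = 0 := base_off h2.1 (by decide)
  have o24 : b2 4 = 0 := base_off h2.1 (by decide)
  have o25 : b2 5 = 0 := base_off h2.1 (by decide)
  have c13 : b1 3 = 0 := le_antisymm
    (argmax_nonpos h1 (u := 3) (t' := 0) (by decide) (by decide) (by rw [g3, g0]; norm_num))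
    (argmax_nonneg h1 (u := 3) (s' := 2) (by decide) (by decide) (by rw [g3, g2]; norm_num))
  have c23 : b2 3 = 0 := le_antisymm
    (argmax_nonpos h2 (u := 3) (t' := 0) (by decide) (by decide) (by rw [g3, g0]; norm_num))
    (argmax_nonneg h2 (u := 3) (s' := 1) (by decide) (by decide) (by rw [g3, g1]; norm_num))
  rw [I1, g0, g1, g2, g3, g4, g5, o11, o14, o15, c13] at j1
  rw [I2, g0, g1, g2, g3, g4, g5, o22, o24, o25, c23] at j2
  rw [o11, o14, o15, c13] at s1
  rw [o22, o24, o25, c23] at s2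
  have c10 : b1 0 = 1 := by linarith only [j1, s1]
  have c12 : b1 2 = -1 := by linarith only [j1, s1]
  have c20 : b2 0 = 1 := by linarith only [j2, s2]
  have c21 : b2 1 = -1 := by linarith only [j2, s2]
  have heq : η' = η := by
    funext u
    rw [hform u, hη u, I1, I2, I3, I4]
    fin_cases u
    · simp [c10, c20, δ, Pi.single_apply]
    · simp [o11, c21, δ, Pi.single_apply]
    · simp [c12, o22, δ, Pi.single_apply]
    · simp [c13, c23, δ, Pi.single_apply]
    · simp [o14, o24, δ, Pi.single_apply]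
    · simp [o15, o25, δ, Pi.single_apply]
  rw [heq]

lemma C_ge : 4 / 9 ≤ Hc.C 0 1 := by
  unfold WHypergraph.C
  rw [d01, div_one, one_mul]
  apply le_csInf
  · obtain ⟨f, hf, η, hη⟩ := exists_lap0
    exact ⟨_, f, hf, η, hη, rfl⟩
  · rintro r ⟨f, hf, η, hη, rfl⟩
    exact lower f hf η hη

/-- **Negative answer.**  There are a finite connected weighted hypergraph and two distinct
vertices `x, y` such that the quotient `(1/l)(1 - K_l(x,y)/d(x,y))` is at most `2/5` for all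
small `l > 0`, while `𝓒(x,y) ≥ 4/9`; hence the curvature `κ(x,y)`, the limit of these quotients
as `l ↓ 0`, satisfies `κ(x,y) ≤ 2/5 < 4/9 ≤ 𝓒(x,y)`. -/
theorem result : ∃ (H : WHypergraph (Fin 6)) (x y : Fin 6),
    H.graph.Connected ∧ x ≠ y ∧
    (∀ᶠ l in 𝓝[>] (0 : ℝ), H.quot x y l ≤ 2 / 5) ∧ 4 / 9 ≤ H.C x y ∧
    ∀ κ : ℝ, H.IsCurvature x y κ → κ < H.C x y := by
  have hev : ∀ᶠ l in 𝓝[>] (0 : ℝ), Hc.quot 0 1 l ≤ 2 / 5 := by
    have h1 : Set.Ioc (0 : ℝ) (1 / 100) ∈ 𝓝[>] (0 : ℝ) :=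
      Ioc_mem_nhdsGT (by norm_num)
    filter_upwards [h1] with l hl
    exact quot_le hl.1 hl.2
  refine ⟨Hc, 0, 1, connected, by decide, hev, C_ge, ?_⟩
  intro κ hκ
  have h1 : κ ≤ 2 / 5 := le_of_tendsto hκ hev
  have h2 := C_ge
  linarith

end Pool.Agent.Results.MP_da7216_co.IKTUCounterexample
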